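import Pool.Agent.Q18.KZ.S2

/-! # Project KZ (helper18), job EX: the random set exists -/

set_option autoImplicit false

namespace Pool.Agent.Q241.KZ

open Finset Filter Topology MeasureTheory
open Pool.Agent.Q18.KZ
open scoped Classical ENNReal

lemma rho_mem (j p : ℕ) : 0 ≤ rho j p ∧ rho j p ≤ 1 := by
  unfold rho
  split_ifs with h
  · refine ⟨by positivity, ?_⟩
    have hp : (1 : ℝ) ≤ p := by exact_mod_cast h.1.one_lt.le
    refine Real.rpow_le_one_of_one_le_of_nonpos hp ?_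
    unfold d1
    norm_num
  · exact ⟨le_rfl, zero_le_one⟩

theorem t_EX (hPS : S_PS) (hXS : S_XS) (hXE : S_XE) (hXR : S_XR) (hXL : S_XL) (hXZ : S_XZ) (hXM : S_XM)
    (hXO1 : S_XO1) (hXO2 : S_XO2) (hXG1 : S_XG1) (hXG2 : S_XG2) (hXHN : S_XHN) (hXHD : S_XHD) (hXT : S_XT) :
    S_EX := by
  intro E η hη
  obtain ⟨J1, h1⟩ := hXE η hη
  obtain ⟨J2, h2⟩ := hXR
  obtain ⟨J3, h3⟩ := hXL
  obtain ⟨J4, h4⟩ := hXZ E
  obtain ⟨J5, h5⟩ := hXM E
  obtain ⟨J6, h6⟩ := hXO1 E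
  obtain ⟨J7, h7⟩ := hXO2 E
  obtain ⟨J8, h8⟩ := hXG1 E
  obtain ⟨J9, h9⟩ := hXG2 E
  obtain ⟨J10, h10⟩ := hXHN E
  obtain ⟨J11, h11⟩ := hXHD E
  obtain ⟨J12, h12⟩ := hXT E
  refine ⟨J1 + J2 + J3 + J4 + J5 + J6 + J7 + J8 + J9 + J10 + J11 + J12, fun j hj => ?_⟩
  obtain ⟨P, hP⟩ := hPS (rho j) (rho_mem j)
  have hprob : IsProbabilityMeasure P := hP.1
  by_contra hne
  have u : ∀ (A B : Set (ℕ → Bool)) (a b : ℝ≥0∞), P A ≤ a → P B ≤ b → P (A ∪ B) ≤ a + b :=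
    fun A B a b ha hb => (measure_union_le A B).trans (add_le_add ha hb)
  have hall := u _ _ _ _ (hXS j P hP).le <| u _ _ _ _ (h1 j (by omega) P hP) <|
    u _ _ _ _ (h2 j (by omega) P hP) <| u _ _ _ _ (h3 j (by omega) P hP) <|
    u _ _ _ _ (h4 j (by omega) P hP) <| u _ _ _ _ (h5 j (by omega) P hP) <|
    u _ _ _ _ (h6 j (by omega) P hP) <| u _ _ _ _ (h7 j (by omega) P hP) <|
    u _ _ _ _ (h8 j (by omega) P hP) <| u _ _ _ _ (h9 j (by omega) P hP) <|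
    u _ _ _ _ (h10 j (by omega) P hP) <| u _ _ _ _ (h11 j (by omega) P hP) (h12 j (by omega) P hP)
  have hle : P Set.univ ≤ 0 + (1 / 20 + (1 / 20 + (1 / 20 + (1 / 20 + (1 / 20 + (1 / 20 + (1 / 20 + (1 / 20 +
      (1 / 20 + (1 / 20 + (1 / 20 + 1 / 20))))))))))) := by
    refine le_trans (measure_mono ?_) hall
    intro V _
    by_contra hV
    apply hne
    refine ⟨V, ?_⟩
    simp only [Set.mem_union, Set.mem_setOf_eq, not_or, not_not] at hV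
    obtain ⟨k0, k1, k2, k3, k4, k5, k6, k7, k8, k9, k10, k11, k12⟩ := hV
    exact ⟨k0, k1, k2, k3, k4, k5, k6, k7, k8, k9, k10, k11, k12⟩
  rw [measure_univ] at hle
  have e1 : (0 : ℝ≥0∞) + (1 / 20 + (1 / 20 + (1 / 20 + (1 / 20 + (1 / 20 + (1 / 20 + (1 / 20 + (1 / 20 +
      (1 / 20 + (1 / 20 + (1 / 20 + 1 / 20))))))))))) = 12 * (1 / 20) := by ring
  rw [e1] at hle
  have e2 : (12 : ℝ≥0∞) * (1 / 20) < 1 := by
    rw [mul_one_div, ENNReal.div_lt_iff (Or.inl (by norm_num)) (Or.inl (by norm_num))]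
    norm_num
  exact absurd hle (not_le.2 e2)

end Pool.Agent.Q241.KZ
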