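import Pool.Agent.Q241.KZ.RAD

/-! # Project KZ (helper18), job LN: few integers are composed of few large primes -/

set_option autoImplicit false

namespace Pool.Agent.Q241.KZ

open Finset Filter Topology
open Pool.Agent.Q18.KZ
open scoped Classical

/-- the function `n ^ (-σ)` -/
noncomputable def powHom (σ : ℝ) : ℕ →* ℝ where
  toFun n := (n : ℝ) ^ (-σ)
  map_one' := by simp
  map_mul' m n := by
    rw [Nat.cast_mul, Real.mul_rpow (Nat.cast_nonneg m) (Nat.cast_nonneg n)]

lemma powHom_apply (σ : ℝ) (n : ℕ) : powHom σ n = (n : ℝ) ^ (-σ) := rfl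

theorem t_LN : S_LN := by
  intro ε k hε
  obtain ⟨J0, hJ0⟩ := exists_nat_ge (2 * (60 + k) / ε)
  refine ⟨max J0 20, fun j hj i hi L hL hcard => ?_⟩
  have hj20 : 20 ≤ j := (le_max_right _ _).trans hj
  have hjJ : J0 ≤ j := (le_max_left _ _).trans hj
  have hi9 : 9 ≤ i := by omega
  set m : ℕ := j / 10 with hm
  have hm1 : 1 ≤ m := by omega
  have hm0 : (0 : ℝ) < m := by exact_mod_cast hm1
  set σ : ℝ := 1 / m with hσ
  have hσ0 : 0 < σ := by positivity
  have hlt : ∀ {p : ℕ}, p.Prime → ‖powHom σ p‖ < 1 := by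
    intro p hp
    rw [powHom_apply, Real.norm_eq_abs, abs_of_nonneg (by positivity)]
    exact Real.rpow_lt_one_of_one_lt_of_neg (by exact_mod_cast hp.one_lt) (by linarith)
  obtain ⟨-, hS⟩ := EulerProduct.summable_and_hasSum_factoredNumbers_prod_filter_prime_geometric hlt L
  set A := (Icc 1 (2 ^ (i + 3))).filter (fun n => ∀ p : ℕ, p.Prime → p ∣ n → p ∈ L) with hA
  have hA1 : ∀ n ∈ A, n ∈ Nat.factoredNumbers L := by
    intro n hn
    rw [hA, mem_filter, mem_Icc] at hn
    exact ⟨by omega, fun p hp => hn.2 p (Nat.prime_of_mem_primeFactorsList hp) (Nat.dvd_of_mem_primeFactorsList hp)⟩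
  have h3 := sum_factored_le L (f := fun n => powHom σ n) (fun n => by rw [powHom_apply]; positivity) hS A hA1
  have h4 : ∏ p ∈ L with p.Prime, (1 - powHom σ p)⁻¹ ≤ (2 : ℝ) ^ (L.card : ℝ) := by
    calc ∏ p ∈ L with p.Prime, (1 - powHom σ p)⁻¹ ≤ ∏ _p ∈ L with _p.Prime, (2 : ℝ) := by
          refine Finset.prod_le_prod (fun p hp => ?_) fun p hp => ?_
          · have := hlt (mem_filter.1 hp).2
            rw [Real.norm_eq_abs] at this
            exact inv_nonneg.2 (by linarith [le_abs_self (powHom σ p)])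
          · have hp' := hL p (mem_filter.1 hp).1
            have h5 : powHom σ p ≤ 1 / 2 := by
              rw [powHom_apply]
              have h6 : (p : ℝ) ^ (-σ) ≤ ((2 : ℝ) ^ m) ^ (-σ) :=
                Real.rpow_le_rpow_of_nonpos (by positivity) (by exact_mod_cast hp'.2) (by linarith)
              have h7 : ((2 : ℝ) ^ m) ^ (-σ) = 1 / 2 := by
                rw [← Real.rpow_natCast, ← Real.rpow_mul (by norm_num), hσ]
                have : (m : ℝ) * -(1 / m) = -1 := by field_simp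
                rw [this, Real.rpow_neg_one]
                norm_num
              linarith
            have h8 : (1 - powHom σ p)⁻¹ ≤ (1 / 2 : ℝ)⁻¹ := inv_anti₀ (by norm_num) (by linarith)
            have h9 : (1 / 2 : ℝ)⁻¹ = 2 := by norm_num
            linarith
      _ = (2 : ℝ) ^ (L.filter Nat.Prime).card := by rw [Finset.prod_const]
      _ ≤ (2 : ℝ) ^ L.card := pow_le_pow_right₀ (by norm_num) (Finset.card_filter_le _ _)
      _ = (2 : ℝ) ^ (L.card : ℝ) := (Real.rpow_natCast _ _).symm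
  have h5 : (A.card : ℝ) ≤ ∑ n ∈ A, (2 : ℝ) ^ (((i : ℝ) + 3) * σ) * powHom σ n := by
    rw [Finset.card_eq_sum_ones, Nat.cast_sum]
    refine Finset.sum_le_sum fun n hn => ?_
    rw [hA, mem_filter, mem_Icc] at hn
    obtain ⟨⟨hn1, hn2⟩, -⟩ := hn
    have hn0 : (0 : ℝ) < n := by exact_mod_cast hn1
    have e1 : (2 : ℝ) ^ (((i : ℝ) + 3) * σ) = (((2 ^ (i + 3) : ℕ) : ℝ)) ^ σ := by
      rw [Nat.cast_pow, Nat.cast_ofNat, ← Real.rpow_natCast, ← Real.rpow_mul (by norm_num)]
      push_cast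
      rfl
    rw [e1, powHom_apply, Real.rpow_neg hn0.le, ← div_eq_mul_inv, Nat.cast_one, le_div_iff₀ (by positivity), one_mul]
    exact Real.rpow_le_rpow hn0.le (by exact_mod_cast hn2) hσ0.le
  rw [← Finset.mul_sum] at h5
  have hj0 : (0 : ℝ) < j := by exact_mod_cast (show 0 < j by omega)
  have hexp : ((i : ℝ) + 3) * σ + L.card ≤ ε * i := by
    have hmj : (j : ℝ) / 20 ≤ m := by
      have h6 : j ≤ 20 * m := by omega
      have : (j : ℝ) ≤ 20 * m := by exact_mod_cast h6
      linarith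
    have h7 : σ ≤ 20 / j := by
      rw [hσ, div_le_div_iff₀ hm0 hj0]
      linarith
    have h8 : (L.card : ℝ) ≤ k * (i + 1) / j := by
      rw [le_div_iff₀ hj0]
      exact hcard
    have hi0 : (9 : ℝ) ≤ i := by exact_mod_cast hi9
    have hk0 : (0 : ℝ) ≤ k := Nat.cast_nonneg k
    have h9 : ((i : ℝ) + 3) * σ ≤ ((i : ℝ) + 3) * (20 / j) := mul_le_mul_of_nonneg_left h7 (by linarith)
    have h10 : ((i : ℝ) + 3) * (20 / j) + k * (i + 1) / j = (20 * (i + 3) + k * (i + 1)) / j := by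
      field_simp
    have h11 : (20 * ((i : ℝ) + 3) + k * (i + 1)) / j ≤ ε * i := by
      rw [div_le_iff₀ hj0]
      have h12 : 2 * (60 + (k : ℝ)) ≤ ε * j := by
        have : (J0 : ℝ) ≤ j := by exact_mod_cast hjJ
        have h13 := hJ0.trans this
        rw [div_le_iff₀ hε] at h13
        linarith
      nlinarith [mul_le_mul_of_nonneg_left h12 (show (0 : ℝ) ≤ i by linarith), mul_nonneg hk0 (show (0 : ℝ) ≤ i - 9 by linarith)]
    linarith
  calc (A.card : ℝ) ≤ (2 : ℝ) ^ (((i : ℝ) + 3) * σ) * ∑ n ∈ A, powHom σ n := h5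
    _ ≤ (2 : ℝ) ^ (((i : ℝ) + 3) * σ) * (2 : ℝ) ^ (L.card : ℝ) :=
        mul_le_mul_of_nonneg_left (h3.trans h4) (by positivity)
    _ = (2 : ℝ) ^ (((i : ℝ) + 3) * σ + L.card) := (Real.rpow_add (by norm_num) _ _).symm
    _ ≤ (2 : ℝ) ^ (ε * i) := Real.rpow_le_rpow_of_exponent_le (by norm_num) hexp

end Pool.Agent.Q241.KZ
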