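import Pool.Agent.Q18.KZ.S1

/-! # Project KZ (helper18), job RAD: few integers have a small radical -/

set_option autoImplicit false

namespace Pool.Agent.Q241.KZ

open Finset Filter Topology
open Pool.Agent.Q18.KZ
open scoped Classical

lemma sum_factored_le {f : ℕ → ℝ} (s : Finset ℕ) {P : ℝ} (h0 : ∀ n, 0 ≤ f n)
    (h : HasSum (fun m : Nat.factoredNumbers s => f m) P) (A : Finset ℕ)
    (hA : ∀ n ∈ A, n ∈ Nat.factoredNumbers s) : ∑ n ∈ A, f n ≤ P := by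
  have h1 : HasSum ((Nat.factoredNumbers s).indicator f) P := hasSum_subtype_iff_indicator.1 h
  calc ∑ n ∈ A, f n = ∑ n ∈ A, (Nat.factoredNumbers s).indicator f n :=
        Finset.sum_congr rfl fun n hn => (Set.indicator_of_mem (hA n hn) f).symm
    _ ≤ P := sum_le_hasSum A (fun n _ => Set.indicator_nonneg (fun m _ => h0 m) n) h1

lemma rd_mul {m n : ℕ} (h : Nat.Coprime m n) : rd (m * n) = rd m * rd n := by
  unfold rd
  rw [h.primeFactors_mul, Finset.prod_union h.disjoint_primeFactors]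

lemma rd_pow {p e : ℕ} (hp : p.Prime) (he : e ≠ 0) : rd (p ^ e) = p := by
  unfold rd
  rw [Nat.primeFactors_pow _ he, hp.primeFactors, prod_singleton]

lemma rd_pos (n : ℕ) : 0 < rd n := Finset.prod_pos fun _ hp => (Nat.prime_of_mem_primeFactors hp).pos

/-- the weight `1 / (rd n · n ^ ε)` -/
noncomputable def gr (ε : ℝ) (n : ℕ) : ℝ := (rd n : ℝ)⁻¹ * (n : ℝ) ^ (-ε)

lemma gr_nonneg (ε : ℝ) (n : ℕ) : 0 ≤ gr ε n := by
  unfold gr
  positivity

lemma gr_one (ε : ℝ) : gr ε 1 = 1 := by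
  simp [gr, rd]

lemma gr_mul (ε : ℝ) {m n : ℕ} (h : Nat.Coprime m n) : gr ε (m * n) = gr ε m * gr ε n := by
  unfold gr
  rw [rd_mul h, Nat.cast_mul, Nat.cast_mul, mul_inv, Real.mul_rpow (Nat.cast_nonneg m) (Nat.cast_nonneg n)]
  ring

lemma gr_pow (ε : ℝ) {p : ℕ} (hp : p.Prime) (e : ℕ) :
    gr ε (p ^ (e + 1)) = (p : ℝ)⁻¹ * (p : ℝ) ^ (-ε) * ((p : ℝ) ^ (-ε)) ^ e := by
  unfold gr
  rw [rd_pow hp (Nat.succ_ne_zero e), Nat.cast_pow, ← Real.rpow_natCast ((p : ℝ) ^ (-ε)) e,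
    ← Real.rpow_mul (Nat.cast_nonneg p), ← Real.rpow_natCast (p : ℝ) (e + 1), ← Real.rpow_mul (Nat.cast_nonneg p),
    mul_assoc, ← Real.rpow_add (by exact_mod_cast hp.pos)]
  congr 2
  push_cast
  ring

lemma gr_hasSum {ε : ℝ} (hε : 0 < ε) {p : ℕ} (hp : p.Prime) :
    HasSum (fun e : ℕ => gr ε (p ^ e)) (1 + (p : ℝ)⁻¹ * (p : ℝ) ^ (-ε) * (1 - (p : ℝ) ^ (-ε))⁻¹) := by
  have hp1 : (1 : ℝ) < p := by exact_mod_cast hp.one_lt
  have hq0 : 0 ≤ (p : ℝ) ^ (-ε) := by positivity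
  have hq1 : (p : ℝ) ^ (-ε) < 1 := Real.rpow_lt_one_of_one_lt_of_neg hp1 (by linarith)
  have h1 : HasSum (fun e : ℕ => gr ε (p ^ (e + 1))) ((p : ℝ)⁻¹ * (p : ℝ) ^ (-ε) * (1 - (p : ℝ) ^ (-ε))⁻¹) := by
    simp only [gr_pow ε hp]
    exact (hasSum_geometric_of_lt_one hq0 hq1).mul_left _
  have h2 := (hasSum_nat_add_iff (f := fun e : ℕ => gr ε (p ^ e)) 1).1 h1
  rw [Finset.sum_range_one, pow_zero, gr_one, add_comm] at h2
  exact h2

theorem t_RAD : S_RAD := by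
  intro ε hε
  set c : ℝ := (1 - (2 : ℝ) ^ (-ε))⁻¹ with hc
  have h2 : (2 : ℝ) ^ (-ε) < 1 := Real.rpow_lt_one_of_one_lt_of_neg (by norm_num) (by linarith)
  have hc0 : 0 < c := inv_pos.2 (by linarith)
  have hsum : Summable fun n : ℕ => (n : ℝ) ^ (-(1 + ε)) := Real.summable_nat_rpow.2 (by linarith)
  set Z : ℝ := ∑' n : ℕ, (n : ℝ) ^ (-(1 + ε)) with hZ
  have hZ0 : 0 ≤ Z := tsum_nonneg fun n => by positivity
  refine ⟨Real.exp (c * Z), Real.one_le_exp (by positivity), fun N X hN hX => ?_⟩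
  have hN0 : (0 : ℝ) < N := by exact_mod_cast hN
  obtain ⟨-, hS⟩ := EulerProduct.summable_and_hasSum_factoredNumbers_prod_filter_prime_tsum (f := gr ε)
    (gr_one ε) (fun h => gr_mul ε h) (fun hp => (gr_hasSum hε hp).summable.norm) (range (N + 1))
  set A := (Icc 1 N).filter (fun n => (rd n : ℝ) ≤ X) with hA
  have hA1 : ∀ n ∈ A, n ∈ Nat.factoredNumbers (range (N + 1)) := by
    intro n hn
    rw [hA, mem_filter, mem_Icc] at hn
    refine ⟨by omega, fun p hp => ?_⟩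
    rw [mem_range]
    have := Nat.le_of_mem_primeFactorsList hp
    omega
  have h3 := sum_factored_le _ (gr_nonneg ε) hS A hA1
  have h4 : ∏ p ∈ range (N + 1) with p.Prime, ∑' e : ℕ, gr ε (p ^ e) ≤ Real.exp (c * Z) := by
    calc ∏ p ∈ range (N + 1) with p.Prime, ∑' e : ℕ, gr ε (p ^ e)
        ≤ ∏ p ∈ range (N + 1) with p.Prime, Real.exp (c * (p : ℝ) ^ (-(1 + ε))) := by
          refine Finset.prod_le_prod (fun p _ => tsum_nonneg fun e => gr_nonneg ε _) fun p hp => ?_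
          have hp' : p.Prime := (mem_filter.1 hp).2
          rw [(gr_hasSum hε hp').tsum_eq]
          have hp0 : (0 : ℝ) < p := by exact_mod_cast hp'.pos
          have h5 : (p : ℝ) ^ (-ε) ≤ (2 : ℝ) ^ (-ε) :=
            Real.rpow_le_rpow_of_nonpos (by norm_num) (by exact_mod_cast hp'.two_le) (by linarith)
          have h6 : (1 - (p : ℝ) ^ (-ε))⁻¹ ≤ c := inv_anti₀ (by linarith) (by linarith)
          have h7 : (p : ℝ)⁻¹ * (p : ℝ) ^ (-ε) = (p : ℝ) ^ (-(1 + ε)) := by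
            rw [← Real.rpow_neg_one, ← Real.rpow_add hp0]
            congr 1
            ring
          rw [h7]
          have h8 : (p : ℝ) ^ (-(1 + ε)) * (1 - (p : ℝ) ^ (-ε))⁻¹ ≤ c * (p : ℝ) ^ (-(1 + ε)) := by
            rw [mul_comm c]
            exact mul_le_mul_of_nonneg_left h6 (by positivity)
          have := Real.add_one_le_exp (c * (p : ℝ) ^ (-(1 + ε)))
          linarith
      _ = Real.exp (∑ p ∈ range (N + 1) with p.Prime, c * (p : ℝ) ^ (-(1 + ε))) := (Real.exp_sum _ _).symm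
      _ ≤ Real.exp (c * Z) := by
          refine Real.exp_le_exp.2 ?_
          rw [← Finset.mul_sum]
          refine mul_le_mul_of_nonneg_left ?_ hc0.le
          exact hsum.sum_le_tsum _ fun n _ => by positivity
  have h5 : (A.card : ℝ) ≤ ∑ n ∈ A, X * (N : ℝ) ^ ε * gr ε n := by
    rw [Finset.card_eq_sum_ones, Nat.cast_sum]
    refine Finset.sum_le_sum fun n hn => ?_
    rw [hA, mem_filter, mem_Icc] at hn
    obtain ⟨⟨hn1, hn2⟩, hn3⟩ := hn
    have hn0 : (0 : ℝ) < n := by exact_mod_cast hn1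
    have hr : (0 : ℝ) < rd n := by exact_mod_cast rd_pos n
    unfold gr
    have e1 : X * (N : ℝ) ^ ε * ((rd n : ℝ)⁻¹ * (n : ℝ) ^ (-ε)) = (X / rd n) * ((N : ℝ) ^ ε / (n : ℝ) ^ ε) := by
      rw [Real.rpow_neg hn0.le]
      field_simp
    rw [e1, Nat.cast_one]
    have h6 : 1 ≤ X / rd n := by rw [le_div_iff₀ hr]; linarith
    have h7 : 1 ≤ (N : ℝ) ^ ε / (n : ℝ) ^ ε := by
      rw [le_div_iff₀ (by positivity), one_mul]
      exact Real.rpow_le_rpow hn0.le (by exact_mod_cast hn2) hε.le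
    nlinarith
  rw [← Finset.mul_sum] at h5
  calc (A.card : ℝ) ≤ X * (N : ℝ) ^ ε * ∑ n ∈ A, gr ε n := h5
    _ ≤ X * (N : ℝ) ^ ε * Real.exp (c * Z) := mul_le_mul_of_nonneg_left (h3.trans h4) (by positivity)
    _ = Real.exp (c * Z) * X * (N : ℝ) ^ ε := by ring

end Pool.Agent.Q241.KZ
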