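import Pool.Agent.Q18.KZ.S4

/-! # Project KZ (helper18), job BLC: geometry of blocks and cells -/

set_option autoImplicit false

namespace Pool.Agent.Q241.KZ

open Finset Filter Topology MeasureTheory
open Pool.Agent.Q18.KZ
open Pool.Agent.W76.MO (hh nc cell lp Rough)

lemma card_cells (p : ℕ → Prop) [DecidablePred p] (A h n : ℕ) :
    ((Ioc A (A + n * h)).filter p).card =
      ∑ k ∈ range n, ((Ioc (A + k * h) (A + (k + 1) * h)).filter p).card := by
  induction n with
  | zero => simp
  | succ n ih =>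
    rw [sum_range_succ, ← ih]
    have h1 : Ioc A (A + (n + 1) * h) = Ioc A (A + n * h) ∪ Ioc (A + n * h) (A + (n + 1) * h) := by
      rw [Ioc_union_Ioc_eq_Ioc (by omega) (by nlinarith)]
    rw [h1, filter_union, card_union_of_disjoint]
    refine disjoint_filter_filter ?_
    rw [Finset.disjoint_left]
    intro x hx hx2
    rw [mem_Ioc] at hx hx2
    omega

theorem t_BLC : S_BLC := by
  intro δ i hδ hδ' hi
  set s := ⌊(1 / 2 - δ) * (i : ℝ)⌋₊ with hs
  set t := 57 * i / 100 with ht
  have hhh : hh δ i = 2 ^ s := rfl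
  have hHB : HB i = 2 ^ t := rfl
  have hi' : (1000 : ℝ) ≤ i := by exact_mod_cast hi
  have hs1 : (s : ℝ) ≤ (1 / 2 - δ) * i := Nat.floor_le (by nlinarith)
  have hs2 : (1 / 2 - δ) * i < s + 1 := Nat.lt_floor_add_one _
  have hs3 : 2 * s ≤ i := by
    have : (2 * s : ℝ) ≤ i := by nlinarith
    exact_mod_cast this
  have hst : s ≤ t := by omega
  have hti : t ≤ i := by omega
  have ht1 : (t : ℝ) ≤ 0.57 * i := by
    have h1 : 100 * t ≤ 57 * i := by omega
    have h2 : (100 * t : ℝ) ≤ 57 * i := by exact_mod_cast h1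
    linarith
  set r := 2 ^ (t - s) with hr
  have hr0 : 0 < r := by positivity
  have hrs : r * 2 ^ s = 2 ^ t := by rw [hr, ← pow_add]; congr 1; omega
  have hdiv : HB i / hh δ i = r := by
    rw [hHB, hhh, ← hrs, Nat.mul_div_cancel _ (by positivity)]
  have hnc : nc δ i = 2 ^ (i - s) := by
    unfold nc
    rw [hhh, Nat.pow_div (by omega) (by norm_num)]
  have hnb : 2 ^ i / HB i = 2 ^ (i - t) := by
    rw [hHB, Nat.pow_div hti (by norm_num)]
  have hbl : ∀ k, bl δ i k = k / r := by
    intro k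
    unfold bl
    rw [hhh, hHB, ← hrs, Nat.mul_div_mul_right _ _ (by positivity)]
  have hprod : 2 ^ (i - t) * r = 2 ^ (i - s) := by
    rw [hr, ← pow_add]; congr 1; omega
  have hfil : ∀ b : ℕ, b < 2 ^ i / HB i → (range (nc δ i)).filter (fun k => bl δ i k = b) =
      Ico (b * r) (b * r + r) := by
    intro b hb
    rw [hnb] at hb
    ext k
    rw [mem_filter, mem_range, mem_Ico, hbl, hnc, Nat.div_eq_iff hr0]
    constructor
    · rintro ⟨h1, h2⟩
      constructor
      · omega
      · omega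
    · rintro ⟨h1, h2⟩
      refine ⟨?_, by omega⟩
      have h3 : b * r + r ≤ 2 ^ (i - s) := by
        rw [← hprod]
        have : (b + 1) * r ≤ 2 ^ (i - t) * r := Nat.mul_le_mul_right _ hb
        linarith
      omega
  refine ⟨?_, ?_, ?_, ?_, ?_, ?_⟩
  · intro k hk
    rw [hbl, hnb, Nat.div_lt_iff_lt_mul hr0, hprod, ← hnc]
    exact hk
  · intro b hb
    rw [hfil b hb, Nat.card_Ico, hdiv]
    omega
  · rw [hdiv, hhh, hHB]
    exact_mod_cast hrs
  · rw [hdiv, hr]
    push_cast
    rw [← Real.rpow_natCast]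
    refine Real.rpow_le_rpow_of_exponent_le (by norm_num) ?_
    rw [Nat.cast_sub hst]
    nlinarith
  · intro k k' hkk
    rw [hbl, hbl] at hkk
    have h1 : |(k : ℝ) - k'| ≤ r := by
      have e1 := Nat.div_add_mod k r
      have e2 := Nat.div_add_mod k' r
      have e3 := Nat.mod_lt k hr0
      have e4 := Nat.mod_lt k' hr0
      rw [hkk] at e1
      rw [abs_le]
      have e5 : k ≤ k' + r := by omega
      have e6 : k' ≤ k + r := by omega
      have e5' : (k : ℝ) ≤ k' + r := by exact_mod_cast e5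
      have e6' : (k' : ℝ) ≤ k + r := by exact_mod_cast e6
      constructor <;> linarith
    calc |(k : ℝ) - k'| * hh δ i ≤ r * hh δ i := mul_le_mul_of_nonneg_right h1 (Nat.cast_nonneg _)
      _ = (2 : ℝ) ^ (t : ℝ) := by
        rw [hhh, Real.rpow_natCast]
        exact_mod_cast hrs
      _ ≤ _ := Real.rpow_le_rpow_of_exponent_le (by norm_num) ht1
  · intro b hb
    rw [hfil b hb, sum_Ico_eq_sum_range]
    have e0 : b * r + r - b * r = r := by omega
    rw [e0]
    unfold nb np cell
    have e1 : 2 ^ i + (b + 1) * HB i = 2 ^ i + b * HB i + r * hh δ i := by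
      rw [hHB, hhh, hrs]; ring
    rw [e1, card_cells]
    push_cast
    refine sum_congr rfl fun k _ => ?_
    have e2 : 2 ^ i + b * HB i + k * hh δ i = 2 ^ i + (b * r + k) * hh δ i := by
      rw [hHB, hhh, ← hrs]; ring
    have e3 : 2 ^ i + b * HB i + (k + 1) * hh δ i = 2 ^ i + (b * r + k + 1) * hh δ i := by
      rw [hHB, hhh, ← hrs]; ring
    rw [e2, e3]

end Pool.Agent.Q241.KZ
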