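import Pool.Agent.Q18.KZ.S3

/-! # Project KZ (helper18), job FIN: the completely multiplicative function -/

set_option autoImplicit false

namespace Pool.Agent.Q241.KZ

open Finset Filter Topology MeasureTheory
open Pool.Agent.Q18.KZ
open scoped Classical

theorem t_FIN (hEX : S_EX) (hFX : S_FX) (hCON : S_CON) : S_FIN := by
  rintro ⟨E⟩
  obtain ⟨η₁, J₁, hη₁, h1⟩ := hFX E
  obtain ⟨η₂, J₂, hη₂, h2⟩ := hCON E
  obtain ⟨J₃, h3⟩ := hEX E (min η₁ η₂) (lt_min hη₁ hη₂)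
  set j := J₁ + J₂ + J₃ with hj
  obtain ⟨V, hV⟩ := h3 j (by omega)
  obtain ⟨z, hz, hz2⟩ := h1 (min η₁ η₂) j V (lt_min hη₁ hη₂) (min_le_left _ _) (by omega) hV
  obtain ⟨C, hC, hC2⟩ := h2 (min η₁ η₂) j V (lt_min hη₁ hη₂) (min_le_right _ _) (by omega) hV z hz hz2
  refine ⟨E.ff V j z, E.δ / 2, C, half_pos E.hδ, hC, Q236.CM.LP_one _, ?_, hC2⟩
  intro m n hm hn
  exact Q236.CM.LP_mul _ (by omega) (by omega)

end Pool.Agent.Q241.KZ
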